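import Pool.Agent.H90.STK.Stmts

/-!
# Elementary facts on rounding at dyadic scales
-/

set_option autoImplicit false

namespace Pool.STK.B58

open Finset Real MeasureTheory
open Pool.Agent.H49.Ent Pool.Agent.H32.Dense

/-- Zooming in: floors. -/
lemma floor_zoom (i j : ℕ) (x : ℝ) :
    ⌊(2 : ℝ) ^ j * Int.fract ((2 : ℝ) ^ i * x)⌋ =
      ⌊(2 : ℝ) ^ (i + j) * x⌋ - 2 ^ j * ⌊(2 : ℝ) ^ i * x⌋ := by
  have h : (2 : ℝ) ^ j * Int.fract ((2 : ℝ) ^ i * x) =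
      (2 : ℝ) ^ (i + j) * x - ((2 ^ j * ⌊(2 : ℝ) ^ i * x⌋ : ℤ) : ℝ) := by
    rw [Int.fract, pow_add]
    push_cast
    ring
  rw [h, Int.floor_sub_intCast]

/-- The fine floor is at least the one given by the coarse floor. -/
lemma floor_fine_le (i k : ℕ) {x y : ℝ}
    (h : ⌊(2 : ℝ) ^ (i + k) * x⌋ = ⌊(2 : ℝ) ^ (i + k) * y⌋) :
    ⌊(2 : ℝ) ^ i * x⌋ ≤ ⌊(2 : ℝ) ^ i * y⌋ := by
  have h2 : (0 : ℝ) < 2 ^ k := by positivity
  have e : ∀ z : ℝ, (2 : ℝ) ^ (i + k) * z = 2 ^ k * ((2 : ℝ) ^ i * z) := fun z => by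
    rw [pow_add]
    ring
  have h1 : (2 ^ k * ⌊(2 : ℝ) ^ i * x⌋ : ℤ) ≤ ⌊(2 : ℝ) ^ (i + k) * x⌋ := by
    rw [Int.le_floor]
    push_cast
    rw [e]
    exact mul_le_mul_of_nonneg_left (Int.floor_le _) h2.le
  rw [h, Int.le_floor] at h1
  push_cast at h1
  rw [e] at h1
  rw [Int.le_floor]
  exact le_of_mul_le_mul_left h1 h2

/-- The fine floor determines the coarse one. -/
lemma floor_fine (i k : ℕ) {x y : ℝ}
    (h : ⌊(2 : ℝ) ^ (i + k) * x⌋ = ⌊(2 : ℝ) ^ (i + k) * y⌋) :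
    ⌊(2 : ℝ) ^ i * x⌋ = ⌊(2 : ℝ) ^ i * y⌋ :=
  le_antisymm (floor_fine_le i k h) (floor_fine_le i k h.symm)

lemma fl_apply {m : ℕ} (j : ℕ) (x : Fin m → ℝ) (l : Fin m) : fl j x l = ⌊(2 : ℝ) ^ j * x l⌋ := rfl

lemma Fl_apply {Ω : Type} {m : ℕ} (x : Ω → Fin m → ℝ) (j : ℕ) (ω : Ω) (l : Fin m) :
    Fl x j ω l = ⌊(2 : ℝ) ^ j * x ω l⌋ := rfl

lemma Xp_apply {Ω : Type} {m : ℕ} (u d : Ω → Fin m → ℝ) (t : ℝ) (j : ℕ) (ω : Ω) (l : Fin m) :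
    Xp u d t j ω l = ⌊(2 : ℝ) ^ j * (u ω l + t * d ω l)⌋ := rfl

/-- Fine roundings determine coarse ones. -/
lemma fl_fine {m : ℕ} {i j : ℕ} (hij : i ≤ j) {x y : Fin m → ℝ} (h : fl j x = fl j y) :
    fl i x = fl i y := by
  obtain ⟨k, rfl⟩ := Nat.exists_eq_add_of_le hij
  funext l
  exact floor_fine i k (congrFun h l)

lemma Fl_zo {Ω : Type} {m : ℕ} (x : Ω → Fin m → ℝ) (i j : ℕ) (ω : Ω) (l : Fin m) :
    Fl (zo i x) j ω l = Fl x (i + j) ω l - 2 ^ j * Fl x i ω l := floor_zoom i j (x ω l)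

/-- Zooming in: the rounded zoomed vector is determined by the rounded ones. -/
lemma Fl_zo_det {Ω : Type} {m : ℕ} (x : Ω → Fin m → ℝ) (i j : ℕ) {ω ω' : Ω}
    (h1 : Fl x (i + j) ω = Fl x (i + j) ω') (h2 : Fl x i ω = Fl x i ω') :
    Fl (zo i x) j ω = Fl (zo i x) j ω' := by
  funext l
  rw [Fl_zo, Fl_zo, h1, h2]

/-- Zooming in: the fine rounded vector is determined by the rounded zoomed one and the coarse
one. -/
lemma Fl_det_zo {Ω : Type} {m : ℕ} (x : Ω → Fin m → ℝ) (i j : ℕ) {ω ω' : Ω}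
    (h1 : Fl (zo i x) j ω = Fl (zo i x) j ω') (h2 : Fl x i ω = Fl x i ω') :
    Fl x (i + j) ω = Fl x (i + j) ω' := by
  funext l
  have := congrFun h1 l
  rw [Fl_zo, Fl_zo, h2] at this
  linarith

lemma Fl_fine {Ω : Type} {m : ℕ} (x : Ω → Fin m → ℝ) {i j : ℕ} (hij : i ≤ j) {ω ω' : Ω}
    (h : Fl x j ω = Fl x j ω') : Fl x i ω = Fl x i ω' := fl_fine hij h

lemma Xp_fine {Ω : Type} {m : ℕ} (u d : Ω → Fin m → ℝ) (t : ℝ) {i j : ℕ} (hij : i ≤ j) {ω ω' : Ω}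
    (h : Xp u d t j ω = Xp u d t j ω') : Xp u d t i ω = Xp u d t i ω' := fl_fine hij h

end Pool.STK.B58
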