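import Pool.Agent.H58.STK.Base

/-!
# Zooming in: directions
-/

set_option autoImplicit false

namespace Pool.STK

open Finset Real MeasureTheory
open Pool.Agent.H49.Ent Pool.Agent.H32.Dense

theorem zd_thm : ZDStmt := by
  intro m Ω ζ _ p u d Z hp i j
  refine CH_congr hp.nonneg ?_ ?_ (fun _ _ _ _ h => h) (fun _ _ _ _ h => h)
  · intro ω ω' _ _ h
    simp only [Ln, Prod.mk.injEq] at h
    exact B58.Fl_det_zo d i j h.1 h.2.1.2
  · intro ω ω' _ _ h
    simp only [Ln, Prod.mk.injEq] at h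
    exact B58.Fl_zo_det d i j h.1 h.2.1.2

end Pool.STK
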