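import Pool.Agent.H58.STK.Base

/-!
# Zooming in: stickiness
-/

set_option autoImplicit false

namespace Pool.STK

open Finset Real MeasureTheory
open Pool.Agent.H49.Ent Pool.Agent.H32.Dense

theorem zs_thm : ZSStmt := by
  intro m Ω ζ _ p u d Z hp i j
  have hnn := hp.nonneg
  have h1 : CH p (Fl (zo i u) j) (fun ω => (Fl (zo i d) j ω, (Ln u d i ω, Z ω))) =
      CH p (Fl u (i + j)) (fun ω => (Fl (zo i d) j ω, (Ln u d i ω, Z ω))) := by
    refine CH_congr hnn ?_ ?_ (fun _ _ _ _ h => h) (fun _ _ _ _ h => h)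
    · intro ω ω' _ _ h
      simp only [Ln, Prod.mk.injEq] at h
      exact B58.Fl_det_zo u i j h.1 h.2.2.1.1
    · intro ω ω' _ _ h
      simp only [Ln, Prod.mk.injEq] at h
      exact B58.Fl_zo_det u i j h.1 h.2.2.1.1
  rw [h1]
  refine CH_mono_cond hnn ?_
  intro ω ω' _ _ h
  simp only [Ln, Prod.mk.injEq] at h
  exact Prod.ext (B58.Fl_det_zo d i j h.1 h.2.1.2) h.2.2

end Pool.STK
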