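import Pool.Agent.H90.STK.Stmts

/-! # Sticky Kakeya: module MEA -/

set_option autoImplicit false

namespace Pool.STK

open Finset Real MeasureTheory
open Pool.Agent.H49.Ent Pool.Agent.H32.Dense

/-- MEA: entropies are measurable and bounded functions of a parameter. -/
theorem mea_thm : MEAStmt := by
  classical
  intro Ω S _ p hp f hf
  have hm : Measurable (fun t => H p (f t)) := by
    unfold H law
    refine Measurable.neg (Finset.measurable_sum _ (fun ω _ => ?_))
    refine Measurable.const_mul (Measurable.log ?_) _
    refine Finset.measurable_sum _ (fun ω' _ => ?_)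
    exact Measurable.ite (hf ω' ω) measurable_const measurable_const
  refine ⟨hm, fun a b => ?_⟩
  have hcard : ∃ ω : Ω, 0 < p ω := by
    by_contra hcon
    push Not at hcon
    have h0 : ∑ ω, p ω = 0 :=
      Finset.sum_eq_zero (fun ω _ => le_antisymm (hcon ω) (hp.nonneg ω))
    rw [hp.sum_one] at h0
    exact one_ne_zero h0
  obtain ⟨ω₀, -⟩ := hcard
  have hb : ∀ t, ‖H p (f t)‖ ≤ Real.log (Fintype.card Ω) := by
    intro t
    rw [Real.norm_eq_abs, abs_of_nonneg (H_nonneg hp.nonneg hp.sum_one _)]
    refine (H_le_log_card hp.nonneg hp.sum_one (f t) (Finset.univ.image (f t))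
      (fun ω _ => Finset.mem_image_of_mem _ (Finset.mem_univ ω))).trans ?_
    apply Real.log_le_log
    · have h1 : (Finset.univ.image (f t)).Nonempty :=
        ⟨f t ω₀, Finset.mem_image_of_mem _ (Finset.mem_univ ω₀)⟩
      exact_mod_cast h1.card_pos
    · exact_mod_cast Finset.card_image_le
  rw [intervalIntegrable_iff]
  exact Measure.integrableOn_of_bounded (M := Real.log (Fintype.card Ω))
    (by simp [Set.uIoc]) hm.aestronglyMeasurable (Filter.Eventually.of_forall hb)

end Pool.STK
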