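import Pool.Agent.H58.STK.Base

/-!
# Chain rule for the directions
-/

set_option autoImplicit false

namespace Pool.STK

open Finset Real MeasureTheory
open Pool.Agent.H49.Ent Pool.Agent.H32.Dense

lemma SPA.start {m : ℕ} {Ω ζ : Type} [Fintype Ω] (p : Ω → ℝ) (d : Ω → Fin m → ℝ) (Z : Ω → ζ)
    (hp : IsLaw p) (hd : ∀ ω i, |d ω i| ≤ 1) : CH p (Fl d 0) Z ≤ cc m := by
  have h := CH_le_vec hp.nonneg hp.sum_one (Fl d 0) Z (fun _ => 2) (by
    intro ω ω' _ _ _ k
    rw [B58.Fl_apply, B58.Fl_apply, pow_zero, one_mul, one_mul]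
    have h1 := abs_le.mp (hd ω k)
    have h2 := abs_le.mp (hd ω' k)
    have a1 : (-1 : ℤ) ≤ ⌊d ω k⌋ := Int.le_floor.mpr (by push_cast; exact h1.1)
    have a2 : (-1 : ℤ) ≤ ⌊d ω' k⌋ := Int.le_floor.mpr (by push_cast; exact h2.1)
    have b1 : ⌊d ω k⌋ ≤ (1 : ℤ) := Int.floor_le_iff.mpr (by push_cast; linarith [h1.2])
    have b2 : ⌊d ω' k⌋ ≤ (1 : ℤ) := Int.floor_le_iff.mpr (by push_cast; linarith [h2.2])
    rw [← Int.cast_abs]
    have : |⌊d ω k⌋ - ⌊d ω' k⌋| ≤ (2 : ℤ) := by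
      rw [abs_le]
      constructor <;> omega
    exact_mod_cast this)
  rw [Ex_const hp.sum_one] at h
  refine h.trans ?_
  unfold cc
  refine mul_le_mul_of_nonneg_left (Real.log_le_log (by norm_num) (by norm_num)) (Nat.cast_nonneg m)

theorem spa_thm : SPAStmt := by
  intro m Ω ζ _ p u d Z hp hd N k
  have hnn := hp.nonneg
  induction N with
  | zero =>
    rw [Finset.range_zero, Finset.sum_empty, zero_mul, add_zero]
    exact SPA.start p d Z hp hd
  | succ N ih =>
    rw [Finset.sum_range_succ]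
    have h1 := CH_le_add hnn (Fl d ((N + 1) * k)) (Fl d (N * k)) Z
    have h2 := CH_le_add hnn (Fl d ((N + 1) * k)) (Fl u (N * k)) (fun ω => (Fl d (N * k) ω, Z ω))
    have h3 : CH p (Fl d ((N + 1) * k)) (fun ω => (Fl u (N * k) ω, (Fl d (N * k) ω, Z ω))) =
        CH p (Fl d ((N + 1) * k)) (bb u d Z k N) := by
      refine CH_congr hnn ?_ ?_ ?_ ?_
      · intro ω ω' _ _ h
        simp only [Prod.mk.injEq] at h
        exact h.1
      · intro ω ω' _ _ h
        simp only [Prod.mk.injEq] at h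
        exact h.1
      · intro ω ω' _ _ h
        simp only [Prod.mk.injEq] at h
        exact Prod.ext (Prod.ext h.1 h.2.1) h.2.2
      · intro ω ω' _ _ h
        simp only [bb, Ln, Prod.mk.injEq] at h
        exact Prod.ext h.1.1 (Prod.ext h.1.2 h.2)
    linarith

end Pool.STK
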