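import Pool.Agent.H58.STK.Base

/-!
# Chain rule for the positions
-/

set_option autoImplicit false

namespace Pool.STK

open Finset Real MeasureTheory
open Pool.Agent.H49.Ent Pool.Agent.H32.Dense

theorem spb_thm : SPBStmt := by
  intro m Ω ζ _ p u d Z hp N k t
  have hnn := hp.nonneg
  induction N with
  | zero =>
    rw [Finset.range_zero, Finset.sum_empty]
    exact CH_nonneg hnn _ _
  | succ N ih =>
    rw [Finset.sum_range_succ]
    refine (add_le_add_left ih _).trans (le_of_eq ?_)
    rw [← CH_chain hnn]
    refine CH_congr hnn ?_ ?_ (fun _ _ _ _ h => h) (fun _ _ _ _ h => h)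
    · intro ω ω' _ _ h
      simp only [Prod.mk.injEq] at h
      exact h.1.1
    · intro ω ω' _ _ h
      simp only [Prod.mk.injEq] at h
      exact Prod.ext h.1 (B58.Xp_fine u d t (Nat.mul_le_mul_right k (Nat.le_succ N)) h.1)

end Pool.STK
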